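import Pool.Agent.H.MP_81590e_gt.B

open Set MeasureTheory Filter Topology Function
open scoped Manifold RealInnerProductSpace NNReal

namespace Pool.Agent.Results.MP_88a170_gt.Becp

abbrev E (n : ℕ) := EuclideanSpace ℝ (Fin n)

variable {M : Type} [TopologicalSpace M] [ChartedSpace (E 2) M]

/-- The differential of `f` at `x`. -/
noncomputable def df (f : M → E 3) (x : M) : E 2 →L[ℝ] E 3 := mfderiv (𝓡 2) (𝓡 3) f x

/-- From every point emanates a straight segment of the surface (lifted continuously to `M`)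
along which the tangent plane is constant. -/
def SemiTorse (f : M → E 3) : Prop :=
  ∀ x, ∃ v : E 3, v ≠ 0 ∧ ∃ γ : ℝ → M, ContinuousOn γ (Icc 0 1) ∧ γ 0 = x ∧
    ∀ s ∈ Icc (0 : ℝ) 1, f (γ s) = f x + s • v ∧ range (df f (γ s)) = range (df f x)

/-- `n` is a continuous unit normal field on `G`. -/
def Normal (f : M → E 3) (G : Set M) (n : M → E 3) : Prop :=
  ContinuousOn n G ∧ ∀ y ∈ G, ‖n y‖ = 1 ∧ ∀ w ∈ range (df f y), ⟪n y, w⟫ = 0

/-- Bounded extrinsic curvature in the sense of Pogorelov. -/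
def BECP (f : M → E 3) : Prop :=
  ∀ x, ∃ G ∈ 𝓝 x, (∃ n, Normal f G n) ∧ ∃ C : ℝ≥0, ∀ n, Normal f G n →
    ∀ (k : ℕ) (H : Fin k → Set M), (∀ i, IsClosed (H i) ∧ H i ⊆ G) → Pairwise (Disjoint on H) →
      ∑ i, μHE[2] (n '' H i) ≤ C

theorem result (M : Type) [TopologicalSpace M] [ChartedSpace (E 2) M] [IsManifold (𝓡 2) 1 M]
    (f : M → E 3) (hf : ContMDiff (𝓡 2) (𝓡 3) 1 f) (imm : ∀ x, Injective (df f x))
    (h : SemiTorse f) : BECP f := by
  intro x
  obtain ⟨G, oG, hx, hn, z⟩ := Pool.Agent.H.MP_81590e_gt.main f hf imm h x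
  refine ⟨G, oG.mem_nhds hx, hn, 0, fun n m k H hH _ => le_of_eq (Finset.sum_eq_zero fun i _ =>
    measure_mono_null ?_ z)⟩
  rintro _ ⟨y, hy, rfl⟩
  exact ⟨(m.2 y ((hH i).2 hy)).1, y, (hH i).2 hy, (m.2 y ((hH i).2 hy)).2⟩

end Pool.Agent.Results.MP_88a170_gt.Becp
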